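import Mathlib
import Pool.Agent.Y800.HM

/-!
# The splitting field of `x³ - a x - b`: degree and ramification
-/

set_option autoImplicit false

namespace Pool.Agent.K1H84.SZ

open Polynomial NumberField IntermediateField Module
open scoped Pointwise

/-- the algebraic numbers -/
abbrev QQ : Type := AlgebraicClosure ℚ

/-- `x³ - a x - b` over `ℚ` -/
noncomputable def cub (a b : ℤ) : Cubic ℚ := ⟨1, 0, -(a : ℚ), -(b : ℚ)⟩

theorem cub_ne (a b : ℤ) : (cub a b).a ≠ 0 := by
  show (1 : ℚ) ≠ 0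
  exact one_ne_zero

theorem cub_splits (a b : ℤ) : (((cub a b).toPoly).map (algebraMap ℚ QQ)).Splits :=
  IsAlgClosed.splits _

/-- the three roots in the algebraic closure -/
theorem exists_roots (a b : ℤ) : ∃ x y z : QQ, x + y + z = 0 ∧ x * y + x * z + y * z = -(a : QQ) ∧
    x * y * z = (b : QQ) ∧ (cub a b).toPoly.rootSet QQ = {x, y, z} := by
  classical
  have h := (Cubic.splits_iff_roots_eq_three (φ := algebraMap ℚ QQ) (cub_ne a b)).1 (cub_splits a b)
  obtain ⟨x, y, z, hxyz⟩ := h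
  have hb := Cubic.b_eq_three_roots (cub_ne a b) hxyz
  have hc := Cubic.c_eq_three_roots (cub_ne a b) hxyz
  have hd := Cubic.d_eq_three_roots (cub_ne a b) hxyz
  have e1 : algebraMap ℚ QQ (cub a b).a = 1 := by
    show algebraMap ℚ QQ 1 = 1
    exact map_one _
  have e2 : algebraMap ℚ QQ (cub a b).b = 0 := by
    show algebraMap ℚ QQ 0 = 0
    exact map_zero _
  have e3 : algebraMap ℚ QQ (cub a b).c = -(a : QQ) := by
    show algebraMap ℚ QQ (-(a : ℚ)) = _
    rw [map_neg, map_intCast]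
  have e4 : algebraMap ℚ QQ (cub a b).d = -(b : QQ) := by
    show algebraMap ℚ QQ (-(b : ℚ)) = _
    rw [map_neg, map_intCast]
  rw [e1, e2] at hb
  rw [e1, e3] at hc
  rw [e1, e4] at hd
  refine ⟨x, y, z, by linear_combination hb, by linear_combination -hc,
    by linear_combination hd, ?_⟩
  rw [rootSet_def, aroots_def, ← Cubic.map_roots (φ := algebraMap ℚ QQ), hxyz]
  ext t
  simp

/-- the splitting field inside the algebraic closure -/
noncomputable abbrev SF (a b : ℤ) : IntermediateField ℚ QQ :=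
  adjoin ℚ ((cub a b).toPoly.rootSet QQ)

instance sf_split (a b : ℤ) : (cub a b).toPoly.IsSplittingField ℚ (SF a b) :=
  adjoin_rootSet_isSplittingField (cub_splits a b)

instance sf_fin (a b : ℤ) : FiniteDimensional ℚ (SF a b) :=
  Polynomial.IsSplittingField.finiteDimensional (SF a b) (cub a b).toPoly

instance sf_nf (a b : ℤ) : NumberField (SF a b) := ⟨⟩

instance sf_normal (a b : ℤ) : Normal ℚ (SF a b) :=
  Normal.of_isSplittingField (cub a b).toPoly

instance sf_galois (a b : ℤ) : IsGalois ℚ (SF a b) := ⟨⟩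

theorem finrank_sf (a b : ℤ) : finrank ℚ (SF a b) ≤ 6 := by
  classical
  set p := (cub a b).toPoly with hp
  have e0 : Nat.card (SF a b ≃ₐ[ℚ] SF a b) = finrank ℚ (SF a b) :=
    IsGalois.card_aut_eq_finrank ℚ (SF a b)
  have e2 := Nat.card_congr (AlgEquiv.autCongr (IsSplittingField.algEquiv (SF a b) p)).toEquiv
  have : Fact ((p.map (algebraMap ℚ QQ)).Splits) := ⟨cub_splits a b⟩
  have e3 : Nat.card p.Gal ≤ Nat.card (Equiv.Perm (p.rootSet QQ)) :=
    Nat.card_le_card_of_injective _ (Polynomial.Gal.galActionHom_injective p QQ)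
  have e4 : Nat.card (p.rootSet QQ) ≤ 3 := by
    obtain ⟨x, y, z, -, -, -, h⟩ := exists_roots a b
    rw [Nat.card_coe_set_eq, h]
    exact (Set.ncard_insert_le _ _).trans (Nat.succ_le_succ
      ((Set.ncard_insert_le _ _).trans (Nat.succ_le_succ (by simp))))
  rw [← e0, e2]
  refine e3.trans ?_
  rw [Nat.card_perm]
  exact (Nat.factorial_le e4).trans (by decide)

theorem isIntegral_of_cubic {R : Type*} [CommRing R] {x : R} (a b : ℤ)
    (h : x ^ 3 - a * x - b = 0) : IsIntegral ℤ x := by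
  refine ⟨X ^ 3 - C a * X - C b, ?_, ?_⟩
  · have : (X ^ 3 - C a * X - C b : ℤ[X]) = X ^ 3 - (C a * X + C b) := by ring
    rw [this]
    apply monic_X_pow_sub
    exact (degree_linear_le).trans_lt (by norm_num)
  · rw [eval₂_sub, eval₂_sub, eval₂_mul, eval₂_pow, eval₂_X, eval₂_C, eval₂_C]
    simpa using h

/-- the discriminant is the square of the product of the differences -/
theorem disc_roots {R : Type*} [CommRing R] {x y z : R} {a b : ℤ} (h1 : x + y + z = 0)
    (h2 : x * y + x * z + y * z = -(a : R)) (h3 : x * y * z = (b : R)) :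
    ((x - y) * (y - z) * (z - x)) ^ 2 = ((4 * a ^ 3 - 27 * b ^ 2 : ℤ) : R) := by
  have hz : z = -x - y := by linear_combination h1
  subst hz
  have ha : (a : R) = x ^ 2 + x * y + y ^ 2 := by linear_combination h2
  push_cast
  rw [ha, ← h3]
  ring

theorem root_eq {R : Type*} [CommRing R] {x y z t : R} {a b : ℤ} (h1 : x + y + z = 0)
    (h2 : x * y + x * z + y * z = -(a : R)) (h3 : x * y * z = (b : R)) :
    (t - x) * (t - y) * (t - z) = t ^ 3 - a * t - b := by
  have ha : (a : R) = -(x * y + x * z + y * z) := by linear_combination h2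
  rw [ha, ← h3]
  linear_combination (-t ^ 2) * h1

section inertia

variable {M : IntermediateField ℚ QQ} [NumberField M]

/-- an automorphism in the inertia group at a prime not dividing the discriminant fixes the
roots -/
theorem inertia_fix {a b : ℤ} {x y z : 𝓞 M} (h1 : x + y + z = 0)
    (h2 : x * y + x * z + y * z = -(a : 𝓞 M)) (h3 : x * y * z = (b : 𝓞 M)) {p : ℕ}
    (hp : p.Prime) (hpD : ¬ (p : ℤ) ∣ 4 * a ^ 3 - 27 * b ^ 2) {P : Ideal (𝓞 M)} (hP : P.IsMaximal)
    (hpP : (p : 𝓞 M) ∈ P) {γ : M ≃ₐ[ℚ] M} (hγ : γ ∈ P.inertia (M ≃ₐ[ℚ] M)) {t : 𝓞 M}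
    (ht : t = x ∨ t = y ∨ t = z) : γ • t = t := by
  have hroot : t ^ 3 - a * t - b = 0 := by
    rw [← root_eq h1 h2 h3]
    rcases ht with rfl | rfl | rfl <;> ring
  have hroot' : (γ • t) ^ 3 - a * (γ • t) - b = 0 := by
    have := congrArg (fun s => γ • s) hroot
    simp only [smul_sub, smul_mul', smul_pow', smul_zero] at this
    have ea : γ • ((a : ℤ) : 𝓞 M) = a := by
      apply RingOfIntegers.ext
      show γ (((a : 𝓞 M) : M)) = _
      exact map_intCast γ a
    have eb : γ • ((b : ℤ) : 𝓞 M) = b := by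
      apply RingOfIntegers.ext
      show γ (((b : 𝓞 M) : M)) = _
      exact map_intCast γ b
    rw [ea, eb] at this
    exact this
  rw [← root_eq h1 h2 h3] at hroot'
  have hγt : γ • t = x ∨ γ • t = y ∨ γ • t = z := by
    rcases mul_eq_zero.1 hroot' with h | h
    · rcases mul_eq_zero.1 h with h | h
      · exact Or.inl (sub_eq_zero.1 h)
      · exact Or.inr (Or.inl (sub_eq_zero.1 h))
    · exact Or.inr (Or.inr (sub_eq_zero.1 h))
  by_contra hne
  have hmem : γ • t - t ∈ P := hγ t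
  have hdisc : ((4 * a ^ 3 - 27 * b ^ 2 : ℤ) : 𝓞 M) ∈ P := by
    rw [← disc_roots h1 h2 h3]
    refine Ideal.pow_mem_of_mem _ ?_ 2 (by norm_num)
    rcases ht with rfl | rfl | rfl <;> rcases hγt with h | h | h
    · exact absurd h hne
    · rw [h] at hmem
      refine Ideal.mul_mem_right _ _ (Ideal.mul_mem_right _ _ ?_)
      have : t - y = -(y - t) := by ring
      rw [this]
      exact neg_mem hmem
    · rw [h] at hmem
      exact Ideal.mul_mem_left _ _ hmem
    · rw [h] at hmem
      exact Ideal.mul_mem_right _ _ (Ideal.mul_mem_right _ _ hmem)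
    · exact absurd h hne
    · rw [h] at hmem
      refine Ideal.mul_mem_right _ _ (Ideal.mul_mem_left _ _ ?_)
      have : t - z = -(z - t) := by ring
      rw [this]
      exact neg_mem hmem
    · rw [h] at hmem
      refine Ideal.mul_mem_left _ _ ?_
      have : t - x = -(x - t) := by ring
      rw [this]
      exact neg_mem hmem
    · rw [h] at hmem
      exact Ideal.mul_mem_right _ _ (Ideal.mul_mem_left _ _ hmem)
    · exact absurd h hne
  apply hpD
  have hund := Pool.Agent.Y800.HM.under_eq M hP hp hpP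
  have : (4 * a ^ 3 - 27 * b ^ 2 : ℤ) ∈ P.under ℤ := by
    rw [Ideal.mem_comap]
    simpa using hdisc
  rw [hund, Ideal.mem_span_singleton] at this
  exact this

end inertia

/-- the roots as algebraic integers of the splitting field, and the bound for its discriminant -/
theorem exists_data {a b : ℤ} (hD : 4 * a ^ 3 - 27 * b ^ 2 ≠ 0) :
    ∃ x y z : 𝓞 (SF a b), x + y + z = 0 ∧ x * y + x * z + y * z = -(a : 𝓞 (SF a b)) ∧
      x * y * z = (b : 𝓞 (SF a b)) ∧
      (discr (SF a b)).natAbs ≤ (finrank ℚ (SF a b) *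
        ∏ p ∈ (4 * a ^ 3 - 27 * b ^ 2).natAbs.primeFactors, p) ^ finrank ℚ (SF a b) := by
  obtain ⟨x, y, z, h1, h2, h3, hS⟩ := exists_roots a b
  have hx : x ∈ SF a b := subset_adjoin ℚ _ (by rw [hS]; simp)
  have hy : y ∈ SF a b := subset_adjoin ℚ _ (by rw [hS]; simp)
  have hz : z ∈ SF a b := subset_adjoin ℚ _ (by rw [hS]; simp)
  set X : SF a b := ⟨x, hx⟩ with hX
  set Y : SF a b := ⟨y, hy⟩ with hY
  set Z : SF a b := ⟨z, hz⟩ with hZ
  have k1 : X + Y + Z = 0 := Subtype.ext h1
  have k2 : X * Y + X * Z + Y * Z = -(a : SF a b) := by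
    apply Subtype.ext
    push_cast
    exact h2
  have k3 : X * Y * Z = (b : SF a b) := by
    apply Subtype.ext
    push_cast
    exact h3
  have iX : IsIntegral ℤ X := isIntegral_of_cubic a b (by rw [← root_eq k1 k2 k3]; ring)
  have iY : IsIntegral ℤ Y := isIntegral_of_cubic a b (by rw [← root_eq k1 k2 k3]; ring)
  have iZ : IsIntegral ℤ Z := isIntegral_of_cubic a b (by rw [← root_eq k1 k2 k3]; ring)
  set X' : 𝓞 (SF a b) := ⟨X, iX⟩ with hX'
  set Y' : 𝓞 (SF a b) := ⟨Y, iY⟩ with hY'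
  set Z' : 𝓞 (SF a b) := ⟨Z, iZ⟩ with hZ'
  have m1 : X' + Y' + Z' = 0 := by
    apply RingOfIntegers.ext
    push_cast
    exact k1
  have m2 : X' * Y' + X' * Z' + Y' * Z' = -(a : 𝓞 (SF a b)) := by
    apply RingOfIntegers.ext
    push_cast
    exact k2
  have m3 : X' * Y' * Z' = (b : 𝓞 (SF a b)) := by
    apply RingOfIntegers.ext
    push_cast
    exact k3
  refine ⟨X', Y', Z', m1, m2, m3, ?_⟩
  refine Pool.Agent.Y800.HM.discr_le (SF a b) _ (fun p hp => Nat.prime_of_mem_primeFactors hp) ?_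
  intro p hp hpS P hP hpP γ hγ
  have hpD : ¬ (p : ℤ) ∣ 4 * a ^ 3 - 27 * b ^ 2 := by
    intro h
    apply hpS
    exact Nat.mem_primeFactors.2 ⟨hp, Int.natCast_dvd.1 h, Int.natAbs_ne_zero.2 hD⟩
  have fx : ∀ t : 𝓞 (SF a b), t = X' ∨ t = Y' ∨ t = Z' → γ (t : SF a b) = t := by
    intro t ht
    have := inertia_fix m1 m2 m3 hp hpD hP hpP hγ ht
    have h4 := congrArg (fun s : 𝓞 (SF a b) => (s : SF a b)) this
    exact h4
  have hAlg : (γ : SF a b →ₐ[ℚ] SF a b) = AlgHom.id ℚ (SF a b) := by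
    refine algHom_ext_of_eq_adjoin ℚ (S := SF a b) (s := (cub a b).toPoly.rootSet QQ) rfl ?_
    intro t ht
    rw [hS] at ht
    rcases ht with rfl | rfl | rfl
    · exact fx X' (Or.inl rfl)
    · exact fx Y' (Or.inr (Or.inl rfl))
    · exact fx Z' (Or.inr (Or.inr rfl))
  apply AlgEquiv.ext
  intro s
  exact congrArg (fun φ : SF a b →ₐ[ℚ] SF a b => φ s) hAlg

end Pool.Agent.K1H84.SZ
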