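import Mathlib
import Pool.Agent.K1H84.SZ.Roots
import Pool.Agent.Results.MP_6e34ef_nt.RelativeViolators

/-!
# The conductor of the triple attached to the roots of a cubic
-/

set_option autoImplicit false

namespace Pool.Agent.K1H84.SZ

open NumberField Module IsDedekindDomain
open Pool.Agent.Results.MP_6e34ef_nt.RelativeViolators (conductor height rootDisc Violates)

section

variable {K : Type} [Field K] [NumberField K]

theorem sum_log_le {R : ℕ} (hR : R ≠ 0) (F : Finset (HeightOneSpectrum (𝓞 K)))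
    (hF : ∀ v ∈ F, (R : 𝓞 K) ∈ v.asIdeal) :
    ∑ v ∈ F, Real.log (Ideal.absNorm v.asIdeal) ≤ finrank ℚ K * Real.log R := by
  classical
  have hinj : Set.InjOn (fun v : HeightOneSpectrum (𝓞 K) => v.asIdeal) F :=
    fun v _ w _ h => HeightOneSpectrum.ext h
  have h1 : ∏ I ∈ F.image (fun v => v.asIdeal), I ∣ Ideal.span {(R : 𝓞 K)} := by
    refine Finset.prod_primes_dvd _ ?_ ?_
    · intro I hI
      obtain ⟨v, hv, rfl⟩ := Finset.mem_image.1 hI
      exact v.prime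
    · intro I hI
      obtain ⟨v, hv, rfl⟩ := Finset.mem_image.1 hI
      exact Ideal.dvd_span_singleton.2 (hF v hv)
  rw [Finset.prod_image hinj] at h1
  have h2 := Ideal.absNorm_dvd_absNorm_of_le (Ideal.dvd_iff_le.1 h1)
  rw [map_prod, Ideal.absNorm_span_singleton] at h2
  have h3 : Algebra.norm ℤ ((R : ℕ) : 𝓞 K) = (R : ℤ) ^ finrank ℚ K := by
    have := Algebra.norm_algebraMap (R := ℤ) (S := 𝓞 K) (R : ℤ)
    rw [RingOfIntegers.rank, map_natCast] at this
    exact this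
  rw [h3, Int.natAbs_pow, Int.natAbs_natCast] at h2
  have h4 : ∏ v ∈ F, Ideal.absNorm v.asIdeal ≤ R ^ finrank ℚ K :=
    Nat.le_of_dvd (pow_pos (Nat.pos_of_ne_zero hR) _) h2
  have hne : ∀ v ∈ F, ((Ideal.absNorm v.asIdeal : ℕ) : ℝ) ≠ 0 := fun v _ => by
    have := Ideal.absNorm_eq_zero_iff.not.2 v.ne_bot
    exact_mod_cast this
  rw [← Real.log_prod hne, ← Real.log_pow]
  refine Real.log_le_log ?_ ?_
  · exact Finset.prod_pos fun v hv => lt_of_le_of_ne (Nat.cast_nonneg _) (Ne.symm (hne v hv))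
  · exact_mod_cast h4

theorem val_eq_one {v : HeightOneSpectrum (𝓞 K)} {r : 𝓞 K} (h : r ∉ v.asIdeal) :
    v.valuation K (r : K) = 1 := by
  apply le_antisymm (v.valuation_le_one r)
  by_contra hlt
  push Not at hlt
  exact h ((v.valuation_lt_one_iff_mem r).1 hlt)

/-- the number of the product of the prime factors lies in the prime ideals containing `D` -/
theorem rad_mem {M : Type} [Field M] [NumberField M] {D : ℤ} (hD : D ≠ 0)
    (v : HeightOneSpectrum (𝓞 M)) (h : (D : 𝓞 M) ∈ v.asIdeal) :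
    ((∏ p ∈ D.natAbs.primeFactors, p : ℕ) : 𝓞 M) ∈ v.asIdeal := by
  obtain ⟨p, hp, hpP⟩ := Pool.Agent.Y800.HM.exists_prime_mem M v.asIdeal v.isMaximal
  have hund := Pool.Agent.Y800.HM.under_eq M v.isMaximal hp hpP
  have hmem : D ∈ v.asIdeal.under ℤ := by
    rw [Ideal.mem_comap]
    simpa using h
  rw [hund, Ideal.mem_span_singleton] at hmem
  have hpf : p ∈ D.natAbs.primeFactors :=
    Nat.mem_primeFactors.2 ⟨hp, Int.natCast_dvd.1 hmem, Int.natAbs_ne_zero.2 hD⟩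
  obtain ⟨m, hm⟩ := Finset.dvd_prod_of_mem (fun p => p) hpf
  rw [hm]
  push_cast
  exact Ideal.mul_mem_right _ _ hpP

/-- outside the discriminant the three valuations are equal -/
theorem val_key {D : ℤ} {x y z : 𝓞 K} (hdisc : ((x - y) * (y - z) * (z - x)) ^ 2 = (D : 𝓞 K))
    (hxyK : ((x - y : 𝓞 K) : K) ≠ 0) (t : K)
    (ht : t = ((x - z : 𝓞 K) : K) / ((x - y : 𝓞 K) : K)) (v : HeightOneSpectrum (𝓞 K))
    (hv : (D : 𝓞 K) ∉ v.asIdeal) :
    v.valuation K t = 1 ∧ v.valuation K (1 - t) = 1 ∧ v.valuation K (-1 : K) = 1 := by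
  have hnot : ∀ r : 𝓞 K, r ∣ ((x - y) * (y - z) * (z - x)) ^ 2 → r ∉ v.asIdeal := by
    intro r hr hmem
    apply hv
    rw [← hdisc]
    exact Ideal.mem_of_dvd _ hr hmem
  have v1 : v.valuation K ((x - y : 𝓞 K) : K) = 1 :=
    val_eq_one (hnot _ ⟨(y - z) * (z - x) * ((x - y) * (y - z) * (z - x)), by ring⟩)
  have v2 : v.valuation K ((z - y : 𝓞 K) : K) = 1 :=
    val_eq_one (hnot _ ⟨-((x - y) * (z - x) * ((x - y) * (y - z) * (z - x))), by ring⟩)
  have v3 : v.valuation K ((x - z : 𝓞 K) : K) = 1 :=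
    val_eq_one (hnot _ ⟨-((x - y) * (y - z) * ((x - y) * (y - z) * (z - x))), by ring⟩)
  refine ⟨by rw [ht, map_div₀, v1, v3, div_one], ?_, by rw [Valuation.map_neg, map_one]⟩
  have : 1 - t = ((z - y : 𝓞 K) : K) / ((x - y : 𝓞 K) : K) := by
    rw [ht, eq_div_iff hxyK, sub_mul, div_mul_cancel₀ _ hxyK]
    push_cast
    ring
  rw [this, map_div₀, v1, v2, div_one]

theorem fin_div {D : ℤ} (hD : D ≠ 0) : {v : HeightOneSpectrum (𝓞 K) | (D : 𝓞 K) ∈ v.asIdeal}.Finite := by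
  have hDK : ((D : 𝓞 K)) ≠ 0 := by exact_mod_cast hD
  have := Ideal.finite_factors (I := Ideal.span {(D : 𝓞 K)}) (by
    rw [Ne, Ideal.zero_eq_bot, Ideal.span_singleton_eq_bot]
    exact hDK)
  refine this.subset fun v hv => ?_
  exact Ideal.dvd_span_singleton.2 hv

theorem finsum_le_of {ι : Type} (f g : ι → ℝ) (s : Finset ι) (hf : ∀ i, i ∉ s → f i = 0)
    (h : ∀ i ∈ s, f i ≤ g i) : ∑ᶠ i, f i ≤ ∑ i ∈ s, g i := by
  rw [finsum_eq_sum_of_support_subset (s := s) f (by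
    intro v hv
    by_contra hcon
    exact hv (hf v hcon))]
  exact Finset.sum_le_sum h

theorem ite_le_self {P : Prop} [Decidable P] {x : ℝ} (hx : 0 ≤ x) : (if P then x else 0) ≤ x := by
  split_ifs
  · exact le_rfl
  · exact hx

open Classical in
/-- the conductor of a triple whose entries have valuation one outside `D` -/
theorem cond_le_gen {D : ℤ} (hD : D ≠ 0) (u : Fin 3 → K)
    (key : ∀ v : HeightOneSpectrum (𝓞 K), (D : 𝓞 K) ∉ v.asIdeal →
      v.valuation K (u 0) = 1 ∧ v.valuation K (u 1) = 1 ∧ v.valuation K (u 2) = 1) (R0 : ℝ)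
    (hR0 : R0 = ∑ᶠ v : HeightOneSpectrum (𝓞 K),
      if ¬ (v.valuation K (u 0) = v.valuation K (u 1) ∧ v.valuation K (u 1) = v.valuation K (u 2))
      then Real.log (Ideal.absNorm v.asIdeal) else 0) :
    R0 ≤ finrank ℚ K * Real.log ((∏ p ∈ D.natAbs.primeFactors, p : ℕ) : ℝ) := by
  have hR : (∏ p ∈ D.natAbs.primeFactors, p) ≠ 0 := Finset.prod_ne_zero_iff.2 fun p hp =>
    (Nat.prime_of_mem_primeFactors hp).ne_zero
  have hfin := fin_div (K := K) hD
  have hB : ∑ v ∈ hfin.toFinset, Real.log (Ideal.absNorm v.asIdeal) ≤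
      finrank ℚ K * Real.log ((∏ p ∈ D.natAbs.primeFactors, p : ℕ) : ℝ) :=
    sum_log_le hR hfin.toFinset fun v hv => rad_mem hD v (hfin.mem_toFinset.1 hv)
  have hA : R0 ≤ ∑ v ∈ hfin.toFinset, Real.log (Ideal.absNorm v.asIdeal) := by
    rw [hR0]
    refine finsum_le_of _ _ _ (fun v hv => ?_) (fun v hv => ?_)
    · have hcon : (D : 𝓞 K) ∉ v.asIdeal := fun h => hv (hfin.mem_toFinset.2 h)
      obtain ⟨k1, k2, k3⟩ := key v hcon
      rw [if_neg (not_not.2 ⟨k1.trans k2.symm, k2.trans k3.symm⟩)]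
    · exact ite_le_self (Real.log_natCast_nonneg _)
  exact le_trans hA hB

/-- the conductor of a triple whose entries have valuation one outside `D` -/
theorem cond_le {D : ℤ} (hD : D ≠ 0) (u : Fin 3 → K)
    (key : ∀ v : HeightOneSpectrum (𝓞 K), (D : 𝓞 K) ∉ v.asIdeal →
      v.valuation K (u 0) = 1 ∧ v.valuation K (u 1) = 1 ∧ v.valuation K (u 2) = 1) :
    Pool.Agent.Results.MP_6e34ef_nt.RelativeViolators.conductor u ≤ Real.log ((∏ p ∈ D.natAbs.primeFactors, p : ℕ) : ℝ) := by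
  have hn : (0 : ℝ) < finrank ℚ K := by exact_mod_cast finrank_pos
  have h := cond_le_gen hD u key _ rfl
  show _ / (finrank ℚ K : ℝ) ≤ _
  rw [div_le_iff₀ hn, mul_comm]
  exact h

end

end Pool.Agent.K1H84.SZ
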